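import Pool.Agent.Y746.OM.Stm
import Pool.Agent.H370R2.DirGood
import Pool.Agent.W190.C3

set_option autoImplicit false

/-!
Project OM (helper746), job OM-F: all zeros off the critical line against the resonator.
-/

namespace Pool.Agent.Y220.OM

open Finset Filter Topology MeasureTheory
open H370 (zset mult NN Zf zz good_zeta mem_Zf sum_refl mult_refl)
open Pool.Agent.Y746.OM

/-! ### the resonator -/

lemma mem_FS {P : Finset ℕ} {Q : ℝ} {S : Finset ℕ} : S ∈ FS P Q ↔ S ⊆ P ∧ (qS S : ℝ) ≤ Q := by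
  unfold FS
  rw [Finset.mem_filter, Finset.mem_powerset]

lemma qS_pos {P : Finset ℕ} (hP : ∀ p ∈ P, p.Prime) {S : Finset ℕ} (hS : S ⊆ P) : 0 < qS S :=
  Finset.prod_pos fun p hp => (hP p (hS hp)).pos

lemma qS_inj {P : Finset ℕ} (hP : ∀ p ∈ P, p.Prime) {S S' : Finset ℕ} (hS : S ⊆ P)
    (hS' : S' ⊆ P) (h : qS S = qS S') : S = S' := by
  have key : ∀ S ⊆ P, (qS S).primeFactors = S := by
    intro S hS
    exact Nat.primeFactors_prod (fun p hp => hP p (hS hp))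
  rw [← key S hS, ← key S' hS', h]

lemma card_FS {P : Finset ℕ} {Q : ℝ} (hP : ∀ p ∈ P, p.Prime) (hQ : 1 ≤ Q) :
    ((FS P Q).card : ℝ) ≤ Q := by
  have h1 : (FS P Q).card ≤ (Finset.Icc 1 ⌊Q⌋₊).card := by
    refine Finset.card_le_card_of_injOn qS ?_ ?_
    · intro S hS
      rw [Finset.mem_coe] at hS ⊢
      obtain ⟨h1, h2⟩ := mem_FS.1 hS
      rw [Finset.mem_Icc]
      exact ⟨qS_pos hP h1, Nat.le_floor h2⟩
    · intro S hS S' hS' h
      rw [Finset.mem_coe] at hS hS'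
      exact qS_inj hP (mem_FS.1 hS).1 (mem_FS.1 hS').1 h
  rw [Nat.card_Icc, Nat.add_sub_cancel] at h1
  exact (Nat.cast_le.2 h1).trans (Nat.floor_le (by linarith))

lemma EP_ge {P : Finset ℕ} {r : ℕ → ℝ} (hr : ∀ p ∈ P, 0 ≤ r p) :
    ∏ p ∈ P, (1 + r p ^ 2) ≤ EP P r := by
  unfold EP
  refine Finset.prod_le_prod (fun p _ => by positivity) fun p hp => ?_
  have := hr p hp
  have h1 : 0 ≤ 8 * r p / Real.sqrt p := by positivity
  linarith

lemma EP_nonneg {P : Finset ℕ} {r : ℕ → ℝ} (hr : ∀ p ∈ P, 0 ≤ r p) : 0 ≤ EP P r :=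
  le_trans (Finset.prod_nonneg fun p _ => by positivity) (EP_ge hr)

lemma RS_bound {P : Finset ℕ} {r : ℕ → ℝ} {Q : ℝ} {y : Finset ℕ → ℂ} (hP : ∀ p ∈ P, p.Prime)
    (hr : ∀ p ∈ P, 0 ≤ r p) (hQ : 1 ≤ Q) (hy : ∀ S ∈ FS P Q, ‖y S‖ ≤ ∏ p ∈ S, r p) (t : ℝ) :
    ‖RS P Q y ((t : ℂ) * Complex.I)‖ ^ 2 ≤ Q * EP P r := by
  have h1 : ‖RS P Q y ((t : ℂ) * Complex.I)‖ ≤ ∑ S ∈ FS P Q, ∏ p ∈ S, r p := by
    unfold RS
    refine (norm_sum_le _ _).trans (Finset.sum_le_sum fun S hS => ?_)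
    rw [norm_mul, Complex.norm_natCast_cpow_of_pos (qS_pos hP (mem_FS.1 hS).1)]
    have h2 : (-((t : ℂ) * Complex.I)).re = 0 := by simp
    rw [h2, Real.rpow_zero, mul_one]
    exact hy S hS
  have h2 : (∑ S ∈ FS P Q, ∏ p ∈ S, r p) ^ 2 ≤
      ((FS P Q).card : ℝ) * ∑ S ∈ FS P Q, (∏ p ∈ S, r p) ^ 2 := sq_sum_le_card_mul_sum_sq
  have h3 : ∑ S ∈ FS P Q, (∏ p ∈ S, r p) ^ 2 ≤ ∏ p ∈ P, (1 + r p ^ 2) := by
    rw [Finset.prod_one_add]
    calc ∑ S ∈ FS P Q, (∏ p ∈ S, r p) ^ 2 = ∑ S ∈ FS P Q, ∏ p ∈ S, r p ^ 2 :=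
          Finset.sum_congr rfl fun S _ => (Finset.prod_pow S 2 r).symm
      _ ≤ ∑ S ∈ P.powerset, ∏ p ∈ S, r p ^ 2 :=
          Finset.sum_le_sum_of_subset_of_nonneg (Finset.filter_subset _ _)
            fun S _ _ => Finset.prod_nonneg fun p _ => sq_nonneg _
  have h0 : 0 ≤ ∑ S ∈ FS P Q, (∏ p ∈ S, r p) ^ 2 := Finset.sum_nonneg fun S _ => sq_nonneg _
  calc ‖RS P Q y ((t : ℂ) * Complex.I)‖ ^ 2 ≤ (∑ S ∈ FS P Q, ∏ p ∈ S, r p) ^ 2 :=
        pow_le_pow_left₀ (norm_nonneg _) h1 2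
    _ ≤ _ := h2
    _ ≤ Q * EP P r :=
        mul_le_mul (card_FS hP hQ) (h3.trans (EP_ge hr)) h0 (by linarith)

lemma RS_cont {P : Finset ℕ} {Q : ℝ} {y : Finset ℕ → ℂ} (hP : ∀ p ∈ P, p.Prime) :
    Continuous fun t : ℝ => ‖RS P Q y ((t : ℂ) * Complex.I)‖ ^ 2 := by
  have h1 : Continuous fun t : ℝ => RS P Q y ((t : ℂ) * Complex.I) := by
    unfold RS
    refine continuous_finsetSum _ fun S hS => ?_
    refine continuous_const.mul ?_
    refine Continuous.const_cpow (by fun_prop) (Or.inl ?_)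
    exact_mod_cast (qS_pos hP (mem_FS.1 hS).1).ne'
  exact h1.norm.pow 2

/-! ### the zeros -/

lemma mult_mu {s : ℂ} (hs : s ≠ 1) : mult riemannZeta s = H353.mu s := by
  unfold H370.mult H353.mu analyticOrderNatAt
  congr 1
  have h1 : H353.FF =ᶠ[𝓝 s] ((fun v : ℂ => v - 1) * riemannZeta) := by
    filter_upwards [isOpen_ne.mem_nhds hs] with v hv
    exact ZU.J_g2b.FF_ne hv
  have hz : AnalyticAt ℂ riemannZeta s := by
    rw [Complex.analyticAt_iff_eventually_differentiableAt]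
    filter_upwards [isOpen_ne.mem_nhds hs] with v hv
    exact differentiableAt_riemannZeta hv
  have hl : AnalyticAt ℂ (fun v : ℂ => v - 1) s := by fun_prop
  rw [analyticOrderAt_congr h1, analyticOrderAt_mul hl hz]
  have h2 : analyticOrderAt (fun v : ℂ => v - 1) s = 0 := by
    rw [hl.analyticOrderAt_eq_zero]
    exact sub_ne_zero.2 hs
  rw [h2, zero_add]

/-- the mirror image of a sum over zeros -/
lemma refl_sum {T : ℝ} (hT : 1 ≤ T) (W : ℝ → ℝ → ℝ) :
    ∑ s ∈ Zf riemannZeta T (2 * T), (mult riemannZeta s : ℝ) * W (-(s.re - 1 / 2)) s.im =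
      ∑ s ∈ Zf riemannZeta T (2 * T), (mult riemannZeta s : ℝ) * W (s.re - 1 / 2) s.im := by
  rw [← sum_refl good_zeta hT (fun s => (mult riemannZeta s : ℝ) * W (s.re - 1 / 2) s.im)]
  refine Finset.sum_congr rfl fun s hs => ?_
  rw [mem_Zf good_zeta hT] at hs
  obtain ⟨h1, h2, h3, _, _⟩ := hs
  rw [mult_refl good_zeta h1 h2 (by linarith)]
  congr 2
  · simp only [Complex.sub_re, Complex.one_re, Complex.conj_re]
    ring
  · simp

/-- zeros far from the critical line -/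
lemma far_count : ∃ C : ℝ, 0 < C ∧ ∀ T : ℝ, 2 ≤ T →
    ∑ s ∈ (Zf riemannZeta T (2 * T)).filter (fun s => 1 / 32 < |s.re - 1 / 2|),
      (mult riemannZeta s : ℝ) ≤ C * T ^ (1 - 1 / 1000 : ℝ) := by
  obtain ⟨C, hC, hD⟩ := Pool.Agent.W190.carlson (1 / 2 + 1 / 50) (6 / 10000) (by norm_num)
    (by norm_num) (by norm_num)
  refine ⟨4 * C, by positivity, fun T hT => ?_⟩
  have hT1 : 1 ≤ T := by linarith
  have hR : ∑ s ∈ Zf riemannZeta T (2 * T), (mult riemannZeta s : ℝ) *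
      (if 1 / 32 < s.re - 1 / 2 then 1 else 0) ≤ C * (2 * T) ^ (1 - 1 / 1000 : ℝ) := by
    have h1 := hD (2 * T) (by linarith)
      ((Zf riemannZeta T (2 * T)).filter (fun s => 1 / 32 < s.re - 1 / 2)) (by
        intro s hs
        rw [Finset.mem_filter, mem_Zf good_zeta hT1] at hs
        obtain ⟨⟨h1, h2, h3, h4, h5⟩, h6⟩ := hs
        have hne : s ≠ 1 := by
          intro h
          rw [h, Complex.one_im] at h3
          linarith
        refine ⟨?_, by linarith, ?_⟩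
        · rw [H353.FF, ZU.J_g2b.FF_ne hne, h5, mul_zero]
        · rw [abs_of_pos (by linarith)]
          exact h4)
    have e : (4 * (1 / 2 + 1 / 50) * (1 - (1 / 2 + 1 / 50)) + 6 / 10000 : ℝ) = 1 - 1 / 1000 := by
      norm_num
    rw [e] at h1
    refine le_trans (le_of_eq ?_) h1
    rw [Finset.sum_filter]
    refine Finset.sum_congr rfl fun s hs => ?_
    rw [mem_Zf good_zeta hT1] at hs
    obtain ⟨h1, h2, h3, h4, h5⟩ := hs
    have hne : s ≠ 1 := by
      intro h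
      rw [h, Complex.one_im] at h3
      linarith
    rw [mult_mu hne]
    split_ifs <;> simp
  have hL : ∑ s ∈ Zf riemannZeta T (2 * T), (mult riemannZeta s : ℝ) *
      (if 1 / 32 < -(s.re - 1 / 2) then 1 else 0) ≤ C * (2 * T) ^ (1 - 1 / 1000 : ℝ) := by
    rw [refl_sum hT1 (fun x _ => if 1 / 32 < x then 1 else 0)]
    exact hR
  have h1 : ∑ s ∈ (Zf riemannZeta T (2 * T)).filter (fun s => 1 / 32 < |s.re - 1 / 2|),
      (mult riemannZeta s : ℝ) ≤
      ∑ s ∈ Zf riemannZeta T (2 * T), (mult riemannZeta s : ℝ) *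
        (if 1 / 32 < s.re - 1 / 2 then 1 else 0) +
      ∑ s ∈ Zf riemannZeta T (2 * T), (mult riemannZeta s : ℝ) *
        (if 1 / 32 < -(s.re - 1 / 2) then 1 else 0) := by
    rw [← Finset.sum_add_distrib, Finset.sum_filter]
    refine Finset.sum_le_sum fun s _ => ?_
    have h0 : (0 : ℝ) ≤ (mult riemannZeta s : ℝ) := Nat.cast_nonneg _
    by_cases h2 : 1 / 32 < |s.re - 1 / 2|
    · rw [if_pos h2]
      rcases lt_abs.1 h2 with h3 | h3
      · rw [if_pos h3, mul_one]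
        split_ifs <;> linarith
      · rw [if_pos h3, mul_one]
        split_ifs <;> linarith
    · rw [if_neg h2]
      split_ifs <;> linarith
  have h2 : (2 * T) ^ (1 - 1 / 1000 : ℝ) ≤ 2 * T ^ (1 - 1 / 1000 : ℝ) := by
    rw [Real.mul_rpow (by norm_num) (by linarith)]
    have h3 : (2 : ℝ) ^ (1 - 1 / 1000 : ℝ) ≤ 2 := by
      calc (2 : ℝ) ^ (1 - 1 / 1000 : ℝ) ≤ 2 ^ (1 : ℝ) :=
            Real.rpow_le_rpow_of_exponent_le (by norm_num) (by norm_num)
        _ = 2 := Real.rpow_one 2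
    exact mul_le_mul_of_nonneg_right h3 (by positivity)
  calc _ ≤ _ := h1
    _ ≤ C * (2 * T) ^ (1 - 1 / 1000 : ℝ) + C * (2 * T) ^ (1 - 1 / 1000 : ℝ) := add_le_add hR hL
    _ = 2 * (C * (2 * T) ^ (1 - 1 / 1000 : ℝ)) := by ring
    _ ≤ 2 * (C * (2 * T ^ (1 - 1 / 1000 : ℝ))) := by
        refine mul_le_mul_of_nonneg_left ?_ (by norm_num)
        exact mul_le_mul_of_nonneg_left h2 hC.le
    _ = 4 * C * T ^ (1 - 1 / 1000 : ℝ) := by ring

/-! ### the Gaussian -/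

lemma gauss_cont (a : ℝ) : Continuous fun t : ℝ => Real.exp (-(a - t) ^ 2 / 2) := by
  fun_prop

lemma gauss_le (a A B : ℝ) (hAB : A ≤ B) :
    ∫ t in A..B, Real.exp (-(a - t) ^ 2 / 2) ≤ 3 := by
  have hi : Integrable fun t : ℝ => Real.exp (-(1 / 2) * t ^ 2) :=
    integrable_exp_neg_mul_sq (by norm_num)
  have hi' : Integrable fun t : ℝ => Real.exp (-(1 / 2) * (a - t) ^ 2) := hi.comp_sub_left a
  have h1 : ∫ t : ℝ, Real.exp (-(1 / 2) * (a - t) ^ 2) = ∫ t : ℝ, Real.exp (-(1 / 2) * t ^ 2) :=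
    integral_sub_left_eq_self (fun t : ℝ => Real.exp (-(1 / 2) * t ^ 2)) volume a
  have h2 : ∫ t : ℝ, Real.exp (-(1 / 2) * t ^ 2) = Real.sqrt (Real.pi / (1 / 2)) :=
    integral_gaussian (1 / 2)
  have h3 : Real.sqrt (Real.pi / (1 / 2)) ≤ 3 := by
    rw [Real.sqrt_le_left (by norm_num)]
    have := Real.pi_lt_d2
    linarith
  have h4 : (fun t : ℝ => Real.exp (-(a - t) ^ 2 / 2)) =
      fun t : ℝ => Real.exp (-(1 / 2) * (a - t) ^ 2) := by
    funext t
    congr 1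
    ring
  rw [h4, intervalIntegral.integral_of_le hAB]
  calc ∫ t in Set.Ioc A B, Real.exp (-(1 / 2) * (a - t) ^ 2) ≤
        ∫ t : ℝ, Real.exp (-(1 / 2) * (a - t) ^ 2) :=
        setIntegral_le_integral hi' (Eventually.of_forall fun t => (Real.exp_pos _).le)
    _ ≤ 3 := by rw [h1, h2]; exact h3

/-! ### the theorem -/

theorem t_F (hE : S_E) : S_F := by
  classical
  obtain ⟨c₀, C₀, T₀, hc₀, hc₀', hC₀, hT₀, hE⟩ := hE
  obtain ⟨C₁, hC₁, hfar⟩ := far_count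
  set c : ℝ := min c₀ (1 / 4000) with hcd
  have hc : 0 < c := lt_min hc₀ (by norm_num)
  have hcc : c ≤ c₀ := min_le_left _ _
  have hc4 : c ≤ 1 / 4000 := min_le_right _ _
  refine ⟨c, 2 * C₀ + 3 * C₁ + 1, max T₀ (Real.exp 32768), hc, by linarith, by positivity,
    hT₀.trans (le_max_left _ _), ?_⟩
  intro T hT P r Q y hP hr hQ hQT hy
  have hT0 : T₀ ≤ T := (le_max_left _ _).trans hT
  have hTe : Real.exp 32768 ≤ T := (le_max_right _ _).trans hT
  have hT10 : 10 ≤ T := hT₀.trans hT0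
  have hTpos : 0 < T := by linarith
  have hT1 : 1 ≤ T := by linarith
  set l : ℝ := Real.log T with hl
  have hl32 : 32768 ≤ l := by
    rw [hl, Real.le_log_iff_exp_le hTpos]
    exact hTe
  have hlpos : 0 < l := by linarith
  have hl1 : 1 ≤ l := by linarith
  set δ : ℝ := l ^ (-(1 / 3) : ℝ) with hδ
  have hδpos : 0 < δ := Real.rpow_pos_of_pos hlpos _
  have hδ32 : δ ≤ 1 / 32 := by
    have h1 : (32768 : ℝ) ^ (-(1 / 3) : ℝ) = 1 / 32 := by
      have : (32768 : ℝ) = 32 ^ (3 : ℝ) := by norm_num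
      rw [this, ← Real.rpow_mul (by norm_num)]
      norm_num
    rw [← h1, hδ]
    exact Real.rpow_le_rpow_of_nonpos (by norm_num) hl32 (by norm_num)
  have hδl : δ * l = l ^ (2 / 3 : ℝ) := by
    rw [hδ]
    nth_rewrite 2 [← Real.rpow_one l]
    rw [← Real.rpow_add hlpos]
    norm_num
  have hδ2 : 2 / l ≤ δ := by
    rw [div_le_iff₀ hlpos, hδl]
    calc (2 : ℝ) ≤ (32768 : ℝ) ^ (2 / 3 : ℝ) := by
          have : (32768 : ℝ) = 32 ^ (3 : ℝ) := by norm_num
          rw [this, ← Real.rpow_mul (by norm_num)]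
          norm_num
      _ ≤ l ^ (2 / 3 : ℝ) := Real.rpow_le_rpow (by norm_num) hl32 (by norm_num)
  have hE1 := hE T hT0 δ hδ2 hδ32 P r Q y hP hr hQ
    (hQT.trans (Real.rpow_le_rpow_of_exponent_le hT1 hcc)) hy
  have hEP : 0 ≤ EP P r := EP_nonneg hr
  -- the exponentials
  have hexp1 : T ^ (-(c₀ * δ)) ≤ Real.exp (-(c * l ^ (2 / 3 : ℝ))) := by
    rw [Real.rpow_def_of_pos hTpos, ← hl, Real.exp_le_exp, ← hδl]
    have : 0 ≤ (c₀ - c) * (δ * l) := mul_nonneg (by linarith) (by positivity)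
    linarith
  have hexp2 : T ^ c * T ^ (1 - 1 / 1000 : ℝ) ≤ T * Real.exp (-(c * l ^ (2 / 3 : ℝ))) := by
    have h1 : l ^ (2 / 3 : ℝ) ≤ l := by
      calc l ^ (2 / 3 : ℝ) ≤ l ^ (1 : ℝ) :=
            Real.rpow_le_rpow_of_exponent_le hl1 (by norm_num)
        _ = l := Real.rpow_one l
    rw [← Real.rpow_add hTpos]
    have h2 : T * Real.exp (-(c * l ^ (2 / 3 : ℝ))) =
        Real.exp (l + -(c * l ^ (2 / 3 : ℝ))) := by
      rw [Real.exp_add, hl, Real.exp_log hTpos]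
    rw [h2, Real.rpow_def_of_pos hTpos, ← hl, Real.exp_le_exp]
    have h3 : c * l ^ (2 / 3 : ℝ) ≤ c * l := mul_le_mul_of_nonneg_left h1 hc.le
    have h4 : c * l ≤ 1 / 4000 * l := mul_le_mul_of_nonneg_right hc4 hlpos.le
    nlinarith
  set E : ℝ := Real.exp (-(c * l ^ (2 / 3 : ℝ))) with hEd
  have hEpos : 0 < E := Real.exp_pos _
  -- the three sums
  set R2 : ℝ → ℝ := fun t => ‖RS P Q y ((t : ℂ) * Complex.I)‖ ^ 2 with hR2
  have hR2c : Continuous R2 := RS_cont hP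
  have hR20 : ∀ t, 0 ≤ R2 t := fun t => sq_nonneg _
  set G : ℝ → ℝ := fun t => ∑ s ∈ (Zf riemannZeta T (2 * T)).filter
        (fun s => δ ≤ |s.re - 1 / 2|),
        (mult riemannZeta s : ℝ) * Real.exp (-(s.im - t) ^ 2 / 2) with hG
  set G1 : ℝ → ℝ := fun t => ∑ s ∈ (Zf riemannZeta T (2 * T)).filter
        (fun s => δ ≤ s.re - 1 / 2 ∧ s.re - 1 / 2 ≤ 1 / 32),
        (mult riemannZeta s : ℝ) * Real.exp (-(s.im - t) ^ 2 / 2) with hG1
  set G3 : ℝ → ℝ := fun t => ∑ s ∈ (Zf riemannZeta T (2 * T)).filter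
        (fun s => 1 / 32 < |s.re - 1 / 2|),
        (mult riemannZeta s : ℝ) * Real.exp (-(s.im - t) ^ 2 / 2) with hG3
  have hsc : ∀ S : Finset ℂ, Continuous fun t : ℝ => ∑ s ∈ S, (mult riemannZeta s : ℝ) *
      Real.exp (-(s.im - t) ^ 2 / 2) := fun S =>
    continuous_finsetSum _ fun s _ => continuous_const.mul (gauss_cont s.im)
  have hGle : ∀ t, G t ≤ 2 * G1 t + G3 t := by
    intro t
    have hm : ∑ s ∈ Zf riemannZeta T (2 * T), (mult riemannZeta s : ℝ) *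
        (if δ ≤ -(s.re - 1 / 2) ∧ -(s.re - 1 / 2) ≤ 1 / 32 then
          Real.exp (-(s.im - t) ^ 2 / 2) else 0) =
        ∑ s ∈ Zf riemannZeta T (2 * T), (mult riemannZeta s : ℝ) *
        (if δ ≤ s.re - 1 / 2 ∧ s.re - 1 / 2 ≤ 1 / 32 then
          Real.exp (-(s.im - t) ^ 2 / 2) else 0) :=
      refl_sum hT1 (fun x v => if δ ≤ x ∧ x ≤ 1 / 32 then Real.exp (-(v - t) ^ 2 / 2) else 0)
    have h1 : G1 t = ∑ s ∈ Zf riemannZeta T (2 * T), (mult riemannZeta s : ℝ) *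
        (if δ ≤ s.re - 1 / 2 ∧ s.re - 1 / 2 ≤ 1 / 32 then
          Real.exp (-(s.im - t) ^ 2 / 2) else 0) := by
      rw [hG1]
      dsimp only
      rw [Finset.sum_filter]
      refine Finset.sum_congr rfl fun s _ => ?_
      split_ifs <;> simp
    have h3 : G3 t = ∑ s ∈ Zf riemannZeta T (2 * T), (mult riemannZeta s : ℝ) *
        (if 1 / 32 < |s.re - 1 / 2| then Real.exp (-(s.im - t) ^ 2 / 2) else 0) := by
      rw [hG3]
      dsimp only
      rw [Finset.sum_filter]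
      refine Finset.sum_congr rfl fun s _ => ?_
      split_ifs <;> simp
    have h4 : 2 * G1 t + G3 t = ∑ s ∈ Zf riemannZeta T (2 * T), (mult riemannZeta s : ℝ) *
        ((if δ ≤ s.re - 1 / 2 ∧ s.re - 1 / 2 ≤ 1 / 32 then
          Real.exp (-(s.im - t) ^ 2 / 2) else 0) +
        (if δ ≤ -(s.re - 1 / 2) ∧ -(s.re - 1 / 2) ≤ 1 / 32 then
          Real.exp (-(s.im - t) ^ 2 / 2) else 0) +
        (if 1 / 32 < |s.re - 1 / 2| then Real.exp (-(s.im - t) ^ 2 / 2) else 0)) := by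
      simp only [mul_add, Finset.sum_add_distrib]
      rw [hm, ← h1, ← h3]
      ring
    rw [h4, hG]
    dsimp only
    rw [Finset.sum_filter]
    refine Finset.sum_le_sum fun s _ => ?_
    have h0 : (0 : ℝ) ≤ (mult riemannZeta s : ℝ) := Nat.cast_nonneg _
    have he : 0 < Real.exp (-(s.im - t) ^ 2 / 2) := Real.exp_pos _
    by_cases h5 : δ ≤ |s.re - 1 / 2|
    · rw [if_pos h5]
      refine mul_le_mul_of_nonneg_left ?_ h0
      by_cases h6 : 1 / 32 < |s.re - 1 / 2|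
      · rw [if_pos h6]
        split_ifs <;> linarith
      · rw [not_lt] at h6
        rcases le_total 0 (s.re - 1 / 2) with h7 | h7
        · rw [abs_of_nonneg h7] at h5 h6
          rw [if_pos (⟨h5, h6⟩ : δ ≤ s.re - 1 / 2 ∧ s.re - 1 / 2 ≤ 1 / 32)]
          split_ifs <;> linarith
        · rw [abs_of_nonpos h7] at h5 h6
          rw [if_pos (⟨h5, h6⟩ : δ ≤ -(s.re - 1 / 2) ∧ -(s.re - 1 / 2) ≤ 1 / 32)]
          split_ifs <;> linarith
    · rw [if_neg h5]
      refine mul_nonneg h0 ?_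
      split_ifs <;> linarith
  have hT2 : T ≤ 2 * T := by linarith
  have hint1 : ∫ t in T..(2 * T), R2 t * G t ≤
      ∫ t in T..(2 * T), (2 * (R2 t * G1 t) + R2 t * G3 t) := by
    refine intervalIntegral.integral_mono_on hT2 ?_ ?_ fun t _ => ?_
    · exact (hR2c.mul (hsc _)).intervalIntegrable _ _
    · exact ((continuous_const.mul (hR2c.mul (hsc _))).add
        (hR2c.mul (hsc _))).intervalIntegrable _ _
    · have := mul_le_mul_of_nonneg_left (hGle t) (hR20 t)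
      linarith
  have hint2 : ∫ t in T..(2 * T), (2 * (R2 t * G1 t) + R2 t * G3 t) =
      2 * (∫ t in T..(2 * T), R2 t * G1 t) + ∫ t in T..(2 * T), R2 t * G3 t := by
    rw [intervalIntegral.integral_add, intervalIntegral.integral_const_mul]
    · exact (continuous_const.mul (hR2c.mul (hsc _))).intervalIntegrable _ _
    · exact (hR2c.mul (hsc _)).intervalIntegrable _ _
  have hint3 : ∫ t in T..(2 * T), R2 t * G3 t ≤ Q * EP P r * (3 * (C₁ * T ^ (1 - 1 / 1000 : ℝ))) := by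
    have h1 : ∫ t in T..(2 * T), R2 t * G3 t ≤ ∫ t in T..(2 * T), Q * EP P r * G3 t := by
      refine intervalIntegral.integral_mono_on hT2 ?_ ?_ fun t _ => ?_
      · exact (hR2c.mul (hsc _)).intervalIntegrable _ _
      · exact (continuous_const.mul (hsc _)).intervalIntegrable _ _
      · refine mul_le_mul_of_nonneg_right (RS_bound hP hr hQ hy t) ?_
        exact Finset.sum_nonneg fun s _ => mul_nonneg (Nat.cast_nonneg _) (Real.exp_pos _).le
    refine h1.trans ?_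
    rw [intervalIntegral.integral_const_mul]
    refine mul_le_mul_of_nonneg_left ?_ (mul_nonneg (by linarith) hEP)
    rw [hG3]
    rw [intervalIntegral.integral_finsetSum fun s _ =>
      (continuous_const.mul (gauss_cont s.im)).intervalIntegrable _ _]
    have h2 : ∀ s ∈ (Zf riemannZeta T (2 * T)).filter (fun s => 1 / 32 < |s.re - 1 / 2|),
        ∫ t in T..(2 * T), (mult riemannZeta s : ℝ) * Real.exp (-(s.im - t) ^ 2 / 2) ≤
        3 * (mult riemannZeta s : ℝ) := by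
      intro s _
      rw [intervalIntegral.integral_const_mul, mul_comm 3]
      exact mul_le_mul_of_nonneg_left (gauss_le s.im T (2 * T) hT2) (Nat.cast_nonneg _)
    refine (Finset.sum_le_sum h2).trans ?_
    rw [← Finset.mul_sum]
    exact mul_le_mul_of_nonneg_left (hfar T (by linarith)) (by norm_num)
  -- conclusion
  set C : ℝ := 2 * C₀ + 3 * C₁ + 1 with hCd
  have hlC : 1 ≤ l ^ C := Real.one_le_rpow hl1 (by positivity)
  have hlC0 : l ^ C₀ ≤ l ^ C := Real.rpow_le_rpow_of_exponent_le hl1 (by rw [hCd]; linarith)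
  have f1 : ∫ t in T..(2 * T), R2 t * G1 t ≤ C₀ * T * l ^ C * E * EP P r := by
    refine hE1.trans ?_
    refine mul_le_mul_of_nonneg_right ?_ hEP
    exact mul_le_mul (mul_le_mul_of_nonneg_left hlC0 (by positivity)) hexp1
      (by positivity) (by positivity)
  have f2 : ∫ t in T..(2 * T), R2 t * G3 t ≤ 3 * C₁ * T * l ^ C * E * EP P r := by
    calc ∫ t in T..(2 * T), R2 t * G3 t ≤ Q * EP P r * (3 * (C₁ * T ^ (1 - 1 / 1000 : ℝ))) := hint3
      _ ≤ T ^ c * EP P r * (3 * (C₁ * T ^ (1 - 1 / 1000 : ℝ))) :=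
          mul_le_mul_of_nonneg_right (mul_le_mul_of_nonneg_right hQT hEP) (by positivity)
      _ = 3 * C₁ * (T ^ c * T ^ (1 - 1 / 1000 : ℝ)) * EP P r := by ring
      _ ≤ 3 * C₁ * (T * E) * EP P r :=
          mul_le_mul_of_nonneg_right (mul_le_mul_of_nonneg_left hexp2 (by positivity)) hEP
      _ = 3 * C₁ * T * E * EP P r * 1 := by ring
      _ ≤ 3 * C₁ * T * E * EP P r * l ^ C :=
          mul_le_mul_of_nonneg_left hlC (by positivity)
      _ = 3 * C₁ * T * l ^ C * E * EP P r := by ring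
  calc ∫ t in T..(2 * T), R2 t * G t ≤
        2 * (∫ t in T..(2 * T), R2 t * G1 t) + ∫ t in T..(2 * T), R2 t * G3 t := by
        rw [← hint2]; exact hint1
    _ ≤ 2 * (C₀ * T * l ^ C * E * EP P r) + 3 * C₁ * T * l ^ C * E * EP P r := by
        linarith
    _ = (2 * C₀ + 3 * C₁) * (T * l ^ C * E * EP P r) := by ring
    _ ≤ C * (T * l ^ C * E * EP P r) := by
        refine mul_le_mul_of_nonneg_right (by rw [hCd]; linarith) (by positivity)
    _ = C * T * l ^ C * E * EP P r := by ring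

end Pool.Agent.Y220.OM
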